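import Mathlib
import Pool.Agent.Y57.AK.Final

set_option autoImplicit false

/-! # The arithmetic Kakeya conjecture for sets whose differences are rich for polynomials

`A` is arbitrary, only its set of differences `D = {x - y : (x, y) ∈ A}` is restricted: `D` is, up
to a polynomial loss, as large as a set can be on which all functions are restrictions of
polynomials of degree `w` in `n` variables, `w ≤ κ n`. Examples are sets of numbers with `n` digits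
from bounded alphabets, of any positive entropy, and polynomially large subsets of the `w`-fold
sumsets of dissociated sets. The proof uses polynomials vanishing to high order at the points of
the projections, the tensor power trick, and random translates of progressions. -/

open Finset

namespace Pool.Agent.Results.MP_169869_co.RichDifferences

/-- the projection `π_r(A) = {x + r y : (x, y) ∈ A}` -/
def proj (r : ℚ) (A : Finset (ℤ × ℤ)) : Finset ℚ :=
  A.image (fun p : ℤ × ℤ => (p.1 : ℚ) + r * (p.2 : ℚ))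

/-- the projection `π_∞(A) = {y : (x, y) ∈ A}` -/
def projInf (A : Finset (ℤ × ℤ)) : Finset ℚ := A.image (fun p : ℤ × ℤ => (p.2 : ℚ))

/-- the largest size of a projection of `A` with slope `∞` or in `S` -/
def big (S : Finset ℚ) (A : Finset (ℤ × ℤ)) : ℕ :=
  max (projInf A).card (S.sup fun r => (proj r A).card)

/-- the projection `π_r(A)` for `A ⊆ ℤ ^ n × ℤ ^ n` -/
def projV {n : ℕ} (r : ℚ) (A : Finset ((Fin n → ℤ) × (Fin n → ℤ))) : Finset (Fin n → ℚ) :=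
  A.image (fun p => fun i => (p.1 i : ℚ) + r * (p.2 i : ℚ))

/-- the projection `π_∞(A)` for `A ⊆ ℤ ^ n × ℤ ^ n` -/
def projInfV {n : ℕ} (A : Finset ((Fin n → ℤ) × (Fin n → ℤ))) : Finset (Fin n → ℤ) :=
  A.image Prod.snd

/-- the largest size of a projection of `A ⊆ ℤ ^ n × ℤ ^ n` with slope `∞` or in `S` -/
def bigV {n : ℕ} (S : Finset ℚ) (A : Finset ((Fin n → ℤ) × (Fin n → ℤ))) : ℕ :=
  max (projInfV A).card (S.sup fun r => (projV r A).card)

/-- every function on the finite set `D ⊆ ℚ ^ n` is the restriction of a polynomial of total degree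
at most `w` -/
def Interp {n : ℕ} (w : ℕ) (D : Finset (Fin n → ℚ)) : Prop :=
  ∀ u : (Fin n → ℚ) → ℚ, ∃ f : MvPolynomial (Fin n) ℚ, f.totalDegree ≤ w ∧
    ∀ d ∈ D, MvPolynomial.eval d f = u d

/-- there is no nontrivial relation `∑ c_i g_i = 0` with integers `|c_i| ≤ L` -/
def Dissociated {n : ℕ} (L : ℕ) (g : Fin n → ℤ) : Prop :=
  ∀ c : Fin n → ℤ, (∀ i, |c i| ≤ (L : ℤ)) → ∑ i, c i * g i = 0 → c = 0

theorem result :
    -- 1. the inequality for subsets of `ℤ ^ n × ℤ ^ n`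
    (∀ (n w : ℕ) (S : Finset ℚ), (-1 : ℚ) ∉ S → ∀ A : Finset ((Fin n → ℤ) × (Fin n → ℤ)),
      Interp w (projV (-1) A) → ∀ x : ℝ, 0 < x → x ≤ 1 →
      ((projV (-1) A).card : ℝ) ^ (S.card + 1) * x ^ w ≤
        (bigV S A : ℝ) ^ (S.card + 1) * (1 + x) ^ ((S.card + 1) * n + w)) ∧
    -- 2. if every coordinate of `x - y` takes at most `q` values on `A`
    (∀ (n q : ℕ) (S : Finset ℚ), 1 ≤ q → (-1 : ℚ) ∉ S →
      ∀ A : Finset ((Fin n → ℤ) × (Fin n → ℤ)), (∀ i, (A.image fun p => p.1 i - p.2 i).card ≤ q) →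
      (projV (-1) A).card * (S.card + 1) ^ n ≤ bigV S A * (S.card + q) ^ n) ∧
    -- 3. the inequality of the conjecture for subsets of `ℤ ^ n × ℤ ^ n`, all large sets of slopes
    (∀ (κ : ℕ) (c ε : ℝ), 0 < c → 0 < ε → ∃ K : ℕ, ∀ S : Finset ℚ, (-1 : ℚ) ∉ S → K ≤ S.card →
      ∀ (n w : ℕ) (A : Finset ((Fin n → ℤ) × (Fin n → ℤ))), w ≤ κ * n →
      Interp w (projV (-1) A) →
      (((n + w).choose w : ℕ) : ℝ) ^ c ≤ ((projV (-1) A).card : ℝ) →
      ((projV (-1) A).card : ℝ) ≤ (bigV S A : ℝ) ^ (1 + ε)) ∧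
    -- 4. the inequality of the conjecture for subsets `A` of `ℤ × ℤ`: all differences are of the
    -- form `∑ r_i g_i`, `r ∈ T`
    (∀ (κ : ℕ) (c ε : ℝ), 0 < c → 0 < ε → ∃ S : Finset ℚ, (-1 : ℚ) ∉ S ∧ ∃ Λ : ℕ,
      ∀ (n w H : ℕ) (g : Fin n → ℤ) (T : Finset (Fin n → ℕ)), 1 ≤ H → w ≤ κ * n →
      Dissociated (Λ * H) g → (∀ r ∈ T, (∀ i, r i ≤ H) ∧ ∑ i, r i ≤ H * w) →
      Interp w (T.image fun r => fun i => (r i : ℚ)) →
      ∀ A : Finset (ℤ × ℤ), (∀ p ∈ A, ∃ r ∈ T, p.1 - p.2 = ∑ i, (r i : ℤ) * g i) →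
      (((n + w).choose w : ℕ) : ℝ) ^ c ≤ ((proj (-1) A).card : ℝ) →
      ((proj (-1) A).card : ℝ) ≤ (big S A : ℝ) ^ (1 + ε)) ∧
    -- 5. in particular if all differences are sums of at most `w` elements of a dissociated set
    -- with multiplicities at most `H`
    (∀ (κ : ℕ) (c ε : ℝ), 0 < c → 0 < ε → ∃ S : Finset ℚ, (-1 : ℚ) ∉ S ∧ ∃ Λ : ℕ,
      ∀ (n w H : ℕ) (g : Fin n → ℤ), 1 ≤ H → w ≤ κ * n → Dissociated (Λ * H) g →
      ∀ A : Finset (ℤ × ℤ), (∀ p ∈ A, ∃ r : Fin n → ℕ, (∀ i, r i ≤ H) ∧ ∑ i, r i ≤ w ∧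
        p.1 - p.2 = ∑ i, (r i : ℤ) * g i) →
      (((n + w).choose w : ℕ) : ℝ) ^ c ≤ ((proj (-1) A).card : ℝ) →
      ((proj (-1) A).card : ℝ) ≤ (big S A : ℝ) ^ (1 + ε)) ∧
    -- 6. or if all differences have `n` digits in base `M`, the `i`-th one in a set `R_i` of at most
    -- `q` digits, which are small compared with `M`
    (∀ q : ℕ, 1 ≤ q → ∀ c ε : ℝ, 0 < c → 0 < ε → ∃ S : Finset ℚ, (-1 : ℚ) ∉ S ∧ ∃ Λ : ℕ,
      ∀ (M n H : ℕ) (R : Fin n → Finset ℕ), 1 ≤ H → Λ * H < M →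
      (∀ i, (R i).card ≤ q ∧ ∀ r ∈ R i, r ≤ H) →
      ∀ A : Finset (ℤ × ℤ), (∀ p ∈ A, ∃ r : Fin n → ℕ, (∀ i, r i ∈ R i) ∧
        p.1 - p.2 = ∑ i, (r i : ℤ) * (M : ℤ) ^ (i : ℕ)) →
      (2 : ℝ) ^ (c * n) ≤ ((proj (-1) A).card : ℝ) →
      ((proj (-1) A).card : ℝ) ≤ (big S A : ℝ) ^ (1 + ε)) :=
  Pool.Agent.Y57.AK.final

end Pool.Agent.Results.MP_169869_co.RichDifferences
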